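import Mathlib
import Pool.Agent.Q12.Ore.Rank
import Pool.Agent.Q12.Ore.Exists

/-!
# MP_62e324_al: the right strong rank condition for Ore extensions with surjective twist

`RSRC A`: no homomorphism of right `A`-modules `A ^ (n + 1) → A ^ n`, `n ≥ 1`, is injective.
`IsSkewDerivation σ δ`: `δ` is additive and `δ (r s) = δ (r) s + σ (r) δ (s)`.
`IsOreExtension σ δ ι x`: the ring `A` with `ι : R → A` and `x ∈ A` is `R[x; σ, δ]`, that is every
element of `A` is `∑ ι (r_i) x ^ i` for a unique finitely supported family `(r_i)` of elements of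
`R`, and `x ι (r) = ι (σ r) x + ι (δ r)`.

1. `R[x; σ, δ]` exists for every ring `R`, endomorphism `σ` and `σ`-derivation `δ`.
2. If `R` satisfies RSRC and `σ` is surjective, then `R[x; σ, δ]` satisfies RSRC, for every
   `σ`-derivation `δ`.
-/

namespace Pool.Agent.Results.MP_62e324_al.RSRCOre

open Q12.Ore

universe u v

theorem result :
    (∀ (R : Type u) [Ring R] (σ : R →+* R) (δ : R →+ R), IsSkewDerivation σ δ →
      ∃ (A : Type u) (_ : Ring A) (ι : R →+* A) (x : A), IsOreExtension σ δ ι x) ∧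
    (∀ (R : Type u) [Ring R] (σ : R →+* R) (δ : R →+ R), IsSkewDerivation σ δ →
      RSRC R → Function.Surjective σ →
      ∀ (A : Type v) [Ring A] (ι : R →+* A) (x : A), IsOreExtension σ δ ι x → RSRC A) :=
  ⟨fun _ _ σ δ h => exists_oreExtension σ δ h,
    fun _ _ _ _ _ hR hσ _ _ _ _ hA => rsrc_ore hA hσ hR⟩

end Pool.Agent.Results.MP_62e324_al.RSRCOre
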